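import Pool.Agent.H116R3.JM.Final

set_option autoImplicit false

/-!
# Just-in-time sequencing with binary demands: the maximum deviation problem is hard

If some polynomial-time algorithm produced, in the implicit form of the problem, an optimal sequence
for the maximum deviation problem, then `P = NP`.  This holds already for the explicit penalties
`F_i x = max (a_i x) (-b_i x)`, `a_i, b_i` positive rationals, given with the demands in binary.

The reduction is from 3SAT.  With the special penalties used, a maximum deviation of at most `1`
means that the `j`-th copy of the model `i` is due at the time `P (ν_i + (j-1) Q_i)`, that the only copy of a
special model is not before a time `k0`, and that the time `k0` is the last moment for it.  The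
models are grouped in gadgets; the gadget of a list of congruence conditions has models of one period
`Q` whose due dates add up to one job in every block of `P` consecutive times, except that the job of a
block is due one block later or earlier at the ends of the set of all `u` which satisfy all the congruences.
By the Chinese remainder theorem the blocks `u` encode all assignments, and there is free room
for a job somewhere if and only if the formula is satisfiable.
-/

namespace Pool.Agent.Results.MP_033923_lc.MaxDevHard

open Pool.Agent.NPC Pool.Agent.H688R2.JIT Pool.Agent.H116R3.JM

/-- The penalties of all valid instances are admissible (convex, zero at zero, positive elsewhere),
and if polynomial-time functions `A` (algorithm) and `Q` (query procedure) solve the maximum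
deviation problem, then every language in `NP` is in `P`. -/
theorem result :
    (∀ I : Inst, Valid I → ∀ i, Admissible (penalty I i)) ∧
    ((∃ A Q : List Bool → List Bool, PolyTime A ∧ PolyTime Q ∧ SolvesMaxDev A Q) →
      ∀ L : Set (List Bool), InNP L → InP L) :=
  ⟨fun _ hI i => penalty_admissible hI i, no_alg⟩

end Pool.Agent.Results.MP_033923_lc.MaxDevHard
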